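import Pool.Agent.Helper68.VL.Colour

/-!
# Rank four data for a set with a very long line
-/

set_option autoImplicit false
set_option linter.unusedSectionVars false

namespace Pool.Agent.Helper68.VL

open Pool.Agent.Helper28.BPack Pool.Agent.Helper61.Motz Pool.Agent.Helper63.HM

variable {L : Type} [Lattice L] [BoundedOrder L] [Finite L] [IsUpperModularLattice L]

open Classical in
/-- **Very long line.**  A set `A` of rank four with a line of `s` points and
`8 |A| ≤ (s - 2) ^ 2`. -/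
theorem crit4_longest {A : Finset L} (hA : ∀ a ∈ A, IsAtom a) (hr : rk (A.sup id) = 4)
    {u : L} (hu : rk u = 2)
    (hs : 8 * A.card ≤ ((A.filter (fun a => a ≤ u)).card - 2) ^ 2) : Crit4 A := by
  obtain ⟨r1, hr1, r2, hr2, hru1, hru2, hr12, hr4, φ, hφ, hφi⟩ := exists_own hA hr hu
  set U := A.filter (fun a => a ≤ u) with hU
  have hUm : ∀ c, c ∈ U ↔ c ∈ A ∧ c ≤ u := fun c => by rw [hU, Finset.mem_filter]
  set Z := A.filter (fun z => ¬ z ≤ u ∧ z ≠ r1 ∧ z ≠ r2 ∧ ¬ u ≤ φ z) with hZdef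
  have hZm : ∀ z, z ∈ Z ↔ z ∈ A ∧ ¬ z ≤ u ∧ z ≠ r1 ∧ z ≠ r2 ∧ ¬ u ≤ φ z := fun z => by
    rw [hZdef, Finset.mem_filter]
  -- numbers
  have hcard : Z.card + U.card + 2 ≤ A.card := by
    have h1 : Disjoint Z U := by
      rw [Finset.disjoint_left]
      intro a ha ha'
      exact ((hZm a).mp ha).2.1 ((hUm a).mp ha').2
    have h2 : Disjoint (Z ∪ U) {r1, r2} := by
      rw [Finset.disjoint_left]
      intro a ha ha'
      rw [Finset.mem_insert, Finset.mem_singleton] at ha'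
      rcases Finset.mem_union.mp ha with h | h
      · rcases ha' with e | e
        · exact ((hZm a).mp h).2.2.1 e
        · exact ((hZm a).mp h).2.2.2.1 e
      · rcases ha' with e | e
        · exact hru1 (e ▸ ((hUm a).mp h).2)
        · exact hru2 (e ▸ ((hUm a).mp h).2)
    have h3 : (Z ∪ U) ∪ {r1, r2} ⊆ A := by
      refine Finset.union_subset (Finset.union_subset (Finset.filter_subset _ _)
        (Finset.filter_subset _ _)) ?_
      intro a ha
      rw [Finset.mem_insert, Finset.mem_singleton] at ha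
      rcases ha with e | e
      · exact e ▸ hr1
      · exact e ▸ hr2
    have h4 := Finset.card_le_card h3
    rw [Finset.card_union_of_disjoint h2, Finset.card_union_of_disjoint h1,
      Finset.card_pair hr12] at h4
    exact h4
  obtain ⟨M, hM1, hM2⟩ : ∃ M : ℕ, 2 * M + 5 ≤ U.card ∧ 2 * Z.card ≤ M ^ 2 := by
    have h5 : 5 ≤ U.card := by
      by_contra h
      have h1 : U.card - 2 ≤ 2 := by omega
      have h2 : (U.card - 2) ^ 2 ≤ 2 ^ 2 := Nat.pow_le_pow_left h1 2
      omega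
    refine ⟨(U.card - 5) / 2, by omega, ?_⟩
    obtain ⟨m, hm⟩ : ∃ m, m = (U.card - 5) / 2 := ⟨_, rfl⟩
    rw [← hm]
    have h6 : U.card = 2 * m + 5 ∨ U.card = 2 * m + 6 := by omega
    rcases h6 with h | h
    · have e : U.card - 2 = 2 * m + 3 := by omega
      rw [e] at hs
      have e2 : (2 * m + 3) ^ 2 = 4 * m ^ 2 + 12 * m + 9 := by ring
      omega
    · have e : U.card - 2 = 2 * m + 4 := by omega
      rw [e] at hs
      have e2 : (2 * m + 4) ^ 2 = 4 * m ^ 2 + 16 * m + 16 := by ring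
      omega
  -- two points of `u`
  obtain ⟨b0, hb0, b1, hb1, hb⟩ := Finset.one_lt_card.mp (by omega : 1 < U.card)
  obtain ⟨hb0A, hb0u⟩ := (hUm b0).mp hb0
  obtain ⟨hb1A, hb1u⟩ := (hUm b1).mp hb1
  have hbu : b0 ⊔ b1 = u := line_eq (hA b0 hb0A) (hA b1 hb1A) hb hb0u hb1u hu
  -- the second points of the own lines
  have hy' : ∀ z, z ∈ Z → ∃ y ∈ A, ¬ y ≤ u ∧ y ≠ z ∧ φ z = z ⊔ y ∧ rk (z ⊔ y ⊔ u) = 4 ∧
      φ z ≠ r1 ⊔ r2 := by
    intro z hz
    obtain ⟨k1, k2, k3, k4, k5⟩ := (hZm z).mp hz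
    rcases hφ z k1 k2 k3 k4 with h | h
    · exact absurd (h.1 ▸ le_sup_right) k5
    · exact h
  choose! y hyA hyu hyz hyφ hy4 hyv using hy'
  have hφ2 : ∀ z ∈ Z, rk (φ z) = 2 := fun z hz => by
    rw [hyφ z hz]
    exact rk_line (hA z ((hZm z).mp hz).1) (hA _ (hyA z hz)) (hyz z hz).symm
  have hφ4 : ∀ z ∈ Z, rk (φ z ⊔ u) = 4 := fun z hz => by
    rw [hyφ z hz]
    exact hy4 z hz
  have hzφ : ∀ z ∈ Z, z ≤ φ z := fun z hz => by
    rw [hyφ z hz]
    exact le_sup_left
  -- the other points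
  have hP : ∀ z ∈ A, ¬ z ≤ u → z ≠ r1 → z ≠ r2 → z ∉ Z →
      φ z = z ⊔ u ∧ ¬ r1 ≤ z ⊔ u ∧ ¬ r2 ≤ z ⊔ u := by
    intro z hz hzu hz1 hz2 hzZ
    rcases hφ z hz hzu hz1 hz2 with h | ⟨w, hw, hwu, hwz, h1, h2, h3⟩
    · exact h
    · exfalso
      apply hzZ
      refine (hZm z).mpr ⟨hz, hzu, hz1, hz2, ?_⟩
      intro h
      have e : u = φ z := eq_of_le_of_rk h
        (by rw [h1, rk_line (hA z hz) (hA w hw) hwz.symm, hu])
      exact hzu (by rw [e, h1]; exact le_sup_left)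
  have hφZ : ∀ z ∈ Z, ∀ w ∈ Z, φ z = φ w → z = w := by
    intro z hz w hw e
    obtain ⟨k1, k2, k3, k4, -⟩ := (hZm z).mp hz
    obtain ⟨j1, j2, j3, j4, -⟩ := (hZm w).mp hw
    exact hφi z k1 k2 k3 k4 w j1 j2 j3 j4 e
  obtain ⟨t, ht1, ht2, ht3⟩ := exists_colours (b0 := b0) (b1 := b1) (Z := Z) hA hu
    (hA r1 hr1) (hA r2 hr2) hr12
    (fun z hz => by
      obtain ⟨k1, k2, k3, k4, -⟩ := (hZm z).mp hz
      exact ⟨k1, k2, k3, k4, hφ2 z hz, hφ4 z hz, hyv z hz⟩)
    hφZ hM1 hM2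
  -- facts on rows and planes of points of `Z`
  have hru : ∀ z ∈ A, ¬ z ≤ u → ∀ c ∈ U, ∀ c' ∈ U, c' ≤ z ⊔ c → c' = c := by
    intro z hz hzu c hc c' hc' h
    obtain ⟨hc1, hc2⟩ := (hUm c).mp hc
    obtain ⟨hc1', hc2'⟩ := (hUm c').mp hc'
    exact row_unique hu (hA z hz) hzu (hA c hc1) hc2 (hA c' hc1') hc2' h
  have hpu : ∀ z ∈ Z, ∀ c ∈ U, ∀ c' ∈ U, c' ≤ φ z ⊔ c → c' = c := by
    intro z hz c hc c' hc' h
    obtain ⟨hc1, hc2⟩ := (hUm c).mp hc
    obtain ⟨hc1', hc2'⟩ := (hUm c').mp hc'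
    exact plane_unique hu (hφ2 z hz) (hφ4 z hz) (hA c hc1) hc2 (hA c' hc1') hc2' h
  have hgc : ∀ z ∈ Z, ∀ c ∈ U, ¬ c ≤ φ z := by
    intro z hz c hc
    obtain ⟨hc1, hc2⟩ := (hUm c).mp hc
    obtain ⟨c', hc', hcc⟩ := Finset.exists_mem_ne (s := U) (by omega) c
    obtain ⟨hc1', hc2'⟩ := (hUm c').mp hc'
    exact not_le_line hu (hφ2 z hz) (hφ4 z hz) (hA c hc1) hc2 (hA c' hc1') hc2' hcc.symm
  have htU : ∀ z ∈ Z, t z ∈ U := fun z hz => (hUm _).mpr ⟨(ht1 z hz).1, (ht1 z hz).2.1⟩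
  -- the base
  have hr1u3 : rk (r1 ⊔ u) = 3 := by rw [sup_comm, rk_sup_atom (hA r1 hr1) hru1, hu]
  have hr2Q : ¬ r2 ≤ r1 ⊔ u := by
    intro h
    have h1 : r1 ⊔ r2 ⊔ u ≤ r1 ⊔ u := sup_le (sup_le le_sup_left h) le_sup_right
    have h2 := rk_mono h1
    omega
  set A' : Finset L := insert r2 (insert r1 U) with hA'
  have hA'm : ∀ a, a ∈ A' ↔ a = r2 ∨ a = r1 ∨ a ∈ U := fun a => by
    rw [hA', Finset.mem_insert, Finset.mem_insert]
  have hA'a : ∀ a ∈ A', IsAtom a := by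
    intro a ha
    rcases (hA'm a).mp ha with e | e | e
    · exact e ▸ hA r2 hr2
    · exact e ▸ hA r1 hr1
    · exact hA a ((hUm a).mp e).1
  have hbase : Crit4 (insert r2 (A'.filter (fun a => a ≤ r1 ⊔ u))) := by
    refine crit4_base (o := r2) hA'a hr1u3 ((hA'm r2).mpr (Or.inl rfl)) hr2Q
      (crit3_plane hA'a ⟨b0, (hA'm b0).mpr (Or.inr (Or.inr hb0)), b1,
        (hA'm b1).mpr (Or.inr (Or.inr hb1)), r1, (hA'm r1).mpr (Or.inr (Or.inl rfl)),
        hb0u.trans le_sup_right, hb1u.trans le_sup_right, le_sup_left, ?_⟩ hr1u3 _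
        (fun a => by rw [Finset.mem_filter]))
    rw [hbu, sup_comm, hr1u3]
  set B := insert r2 (A'.filter (fun a => a ≤ r1 ⊔ u)) with hB
  have hBm : ∀ a, a ∈ B ↔ a = r1 ∨ a = r2 ∨ a ∈ U := by
    intro a
    rw [hB, Finset.mem_insert, Finset.mem_filter, hA'm]
    constructor
    · rintro (h | ⟨h | h | h, -⟩)
      · exact Or.inr (Or.inl h)
      · exact Or.inr (Or.inl h)
      · exact Or.inl h
      · exact Or.inr (Or.inr h)
    · rintro (h | h | h)
      · exact Or.inr ⟨Or.inr (Or.inl h), h ▸ le_sup_left⟩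
      · exact Or.inl h
      · exact Or.inr ⟨Or.inr (Or.inr h), ((hUm a).mp h).2.trans le_sup_right⟩
  have hBn : ∀ a ∈ A, a ∉ B → ¬ a ≤ u ∧ a ≠ r1 ∧ a ≠ r2 := by
    intro a ha h
    rw [hBm] at h
    push Not at h
    exact ⟨fun h' => h.2.2 ((hUm a).mpr ⟨ha, h'⟩), h.1, h.2.1⟩
  -- two points of the base on a line over a point of `u`
  have hl1 : ∀ z ∈ A, ¬ z ≤ u → ∀ c ∈ U, ¬ r1 ≤ z ⊔ c → ¬ r2 ≤ z ⊔ c → ∀ a ∈ B, ∀ e ∈ B,
      a ≠ e → a ≤ z ⊔ c → e ≤ z ⊔ c → False := by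
    intro z hz hzu c hc h1 h2 a ha e he hae h3 h4
    have key : ∀ x ∈ B, x ≤ z ⊔ c → x = c := by
      intro x hx hxl
      rcases (hBm x).mp hx with h | h | h
      · exact absurd (h ▸ hxl) h1
      · exact absurd (h ▸ hxl) h2
      · exact hru z hz hzu c hc x h hxl
    exact hae ((key a ha h3).trans (key e he h4).symm)
  -- the rank of `x ⊔ b0 ⊔ b1`
  have hxbb : ∀ x, x ⊔ b0 ⊔ b1 = x ⊔ u := fun x => by rw [sup_assoc, hbu]
  have hxu3 : ∀ x ∈ A, ¬ x ≤ u → rk (x ⊔ u) = 3 := fun x hx hxu => by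
    rw [sup_comm, rk_sup_atom (hA x hx) hxu, hu]
  have htop : ∀ x ∈ Z, x ⊔ t x ⊔ y x = φ x ⊔ t x := fun x hx => by
    rw [hyφ x hx, sup_assoc, sup_comm (t x) (y x), ← sup_assoc]
  have htop3 : ∀ x ∈ Z, rk (φ x ⊔ t x) = 3 := fun x hx => by
    rw [rk_sup_atom (hA _ (ht1 x hx).1) (hgc x hx _ (htU x hx)), hφ2 x hx]
  refine nPeel (A := A) (B := B) (c' := fun x => if x ∈ Z then t x else b0)
    (d' := fun x => if x ∈ Z then y x else b1) hA ?_ hbase ?_ ?_ ?_ ?_ ?_ ?_ ?_ ?_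
  · intro a ha
    rcases (hBm a).mp ha with h | h | h
    · exact h ▸ hr1
    · exact h ▸ hr2
    · exact ((hUm a).mp h).1
  · intro x hx hxB
    obtain ⟨k1, k2, k3⟩ := hBn x hx hxB
    by_cases h : x ∈ Z
    · simp only [h, if_true]
      exact ⟨(ht1 x h).1, hyA x h, by rw [htop x h, htop3 x h]⟩
    · simp only [h, if_false]
      exact ⟨hb0A, hb1A, by rw [hxbb, hxu3 x hx k1]⟩
  · intro x hx hxB w hw hwB e
    obtain ⟨k1, k2, k3⟩ := hBn x hx hxB
    obtain ⟨j1, j2, j3⟩ := hBn w hw hwB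
    by_cases h : x ∈ Z
    · by_cases h' : w ∈ Z
      · simp only [h, h', if_true] at e
        exact ht2 x h w h' e
      · simp only [h, h', if_true, if_false] at e
        have h1 := hru x hx k1 (t x) (htU x h) b0 hb0 (by rw [e]; exact le_sup_right)
        exact absurd h1.symm (ht1 x h).2.2.1
    · by_cases h' : w ∈ Z
      · simp only [h, h', if_true, if_false] at e
        have h1 := hru w hw j1 (t w) (htU w h') b0 hb0 (by rw [← e]; exact le_sup_right)
        exact absurd h1.symm (ht1 w h').2.2.1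
      · simp only [h, h', if_false] at e
        obtain ⟨p1, -, -⟩ := hP x hx k1 k2 k3 h
        obtain ⟨q1, -, -⟩ := hP w hw j1 j2 j3 h'
        refine hφi x hx k1 k2 k3 w hw j1 j2 j3 ?_
        rw [p1, q1, ← hxbb, ← hxbb, e]
  · intro x hx hxB w hw hwB e
    obtain ⟨k1, k2, k3⟩ := hBn x hx hxB
    obtain ⟨j1, j2, j3⟩ := hBn w hw hwB
    by_cases h : x ∈ Z
    · by_cases h' : w ∈ Z
      · simp only [h, h', if_true] at e
        rw [← hyφ x h, ← hyφ w h'] at e
        exact hφZ x h w h' e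
      · simp only [h, h', if_true, if_false] at e
        rw [← hyφ x h] at e
        exact absurd (e ▸ le_sup_right) (hgc x h b1 hb1)
    · by_cases h' : w ∈ Z
      · simp only [h, h', if_true, if_false] at e
        rw [← hyφ w h'] at e
        exact absurd (e ▸ le_sup_right) (hgc w h' b1 hb1)
      · simp only [h, h', if_false] at e
        obtain ⟨p1, -, -⟩ := hP x hx k1 k2 k3 h
        obtain ⟨q1, -, -⟩ := hP w hw j1 j2 j3 h'
        refine hφi x hx k1 k2 k3 w hw j1 j2 j3 ?_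
        have e1 : ∀ v : L, v ⊔ u = v ⊔ b1 ⊔ b0 := fun v => by
          rw [sup_assoc, sup_comm b1 b0, hbu]
        rw [p1, q1, e1 x, e1 w, e]
  · intro x hx hxB w hw hwB e
    obtain ⟨k1, k2, k3⟩ := hBn x hx hxB
    obtain ⟨j1, j2, j3⟩ := hBn w hw hwB
    by_cases h : x ∈ Z
    · by_cases h' : w ∈ Z
      · simp only [h, h', if_true] at e
        rw [← hyφ w h'] at e
        exact hgc w h' (t x) (htU x h) (e ▸ le_sup_right)
      · simp only [h, h', if_true, if_false] at e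
        have h1 := hru x hx k1 (t x) (htU x h) b1 hb1 (by rw [e]; exact le_sup_right)
        exact absurd h1.symm (ht1 x h).2.2.2.1
    · by_cases h' : w ∈ Z
      · simp only [h, h', if_true, if_false] at e
        rw [← hyφ w h'] at e
        exact hgc w h' b0 hb0 (e ▸ le_sup_right)
      · simp only [h, h', if_false] at e
        exact hb (hru w hw j1 b1 hb1 b0 hb0 (e ▸ le_sup_right))
  · intro x hx hxB w hw hwB e
    obtain ⟨k1, k2, k3⟩ := hBn x hx hxB
    obtain ⟨j1, j2, j3⟩ := hBn w hw hwB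
    by_cases h : x ∈ Z
    · by_cases h' : w ∈ Z
      · simp only [h, h', if_true] at e
        rw [htop x h, htop w h'] at e
        exact ht3 x h w h' e
      · exfalso
        simp only [h, h', if_true, if_false] at e
        rw [htop x h, hxbb] at e
        have h1 := hpu x h (t x) (htU x h) b0 hb0 (by
          rw [e]; exact hb0u.trans le_sup_right)
        exact (ht1 x h).2.2.1 h1.symm
    · by_cases h' : w ∈ Z
      · exfalso
        simp only [h, h', if_true, if_false] at e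
        rw [htop w h', hxbb] at e
        have h1 := hpu w h' (t w) (htU w h') b0 hb0 (by
          rw [← e]; exact hb0u.trans le_sup_right)
        exact (ht1 w h').2.2.1 h1.symm
      · simp only [h, h', if_false] at e
        obtain ⟨p1, -, -⟩ := hP x hx k1 k2 k3 h
        obtain ⟨q1, -, -⟩ := hP w hw j1 j2 j3 h'
        refine hφi x hx k1 k2 k3 w hw j1 j2 j3 ?_
        rw [hxbb, hxbb] at e
        rw [p1, q1, e]
  · intro x hx hxB a ha e he hae h1 h2
    obtain ⟨k1, k2, k3⟩ := hBn x hx hxB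
    by_cases h : x ∈ Z
    · simp only [h, if_true] at h1 h2
      obtain ⟨-, -, -, -, p1, p2, -⟩ := ht1 x h
      exact hl1 x hx k1 (t x) (htU x h) p1 p2 a ha e he hae h1 h2
    · simp only [h, if_false] at h1 h2
      obtain ⟨-, p1, p2⟩ := hP x hx k1 k2 k3 h
      exact hl1 x hx k1 b0 hb0 (fun h' => p1 (h'.trans (sup_le_sup_left hb0u x)))
        (fun h' => p2 (h'.trans (sup_le_sup_left hb0u x))) a ha e he hae h1 h2
  · intro x hx hxB a ha e he hae h1 h2
    obtain ⟨k1, k2, k3⟩ := hBn x hx hxB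
    by_cases h : x ∈ Z
    · simp only [h, if_true] at h1 h2
      rw [← hyφ x h] at h1 h2
      have key : ∀ v ∈ B, v ≤ φ x → v = r1 ∨ v = r2 := by
        intro v hv hvl
        rcases (hBm v).mp hv with h' | h' | h'
        · exact Or.inl h'
        · exact Or.inr h'
        · exact absurd hvl (hgc x h v h')
      have h3 : r1 ≤ φ x ∧ r2 ≤ φ x := by
        rcases key a ha h1 with ha1 | ha1
        · rcases key e he h2 with he1 | he1
          · exact absurd (ha1.trans he1.symm) hae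
          · exact ⟨ha1 ▸ h1, he1 ▸ h2⟩
        · rcases key e he h2 with he1 | he1
          · exact ⟨he1 ▸ h2, ha1 ▸ h1⟩
          · exact absurd (ha1.trans he1.symm) hae
      exact hyv x h (line_eq (hA r1 hr1) (hA r2 hr2) hr12 h3.1 h3.2 (hφ2 x h)).symm
    · simp only [h, if_false] at h1 h2
      obtain ⟨-, p1, p2⟩ := hP x hx k1 k2 k3 h
      exact hl1 x hx k1 b1 hb1 (fun h' => p1 (h'.trans (sup_le_sup_left hb1u x)))
        (fun h' => p2 (h'.trans (sup_le_sup_left hb1u x))) a ha e he hae h1 h2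
  · intro x hx hxB a ha e he s hs' hr3 h1 h2 h3
    obtain ⟨k1, k2, k3⟩ := hBn x hx hxB
    have hne3 := ne_of_rk3 (hA a (by
        rcases (hBm a).mp ha with h | h | h
        · exact h ▸ hr1
        · exact h ▸ hr2
        · exact ((hUm a).mp h).1)) (hA e (by
        rcases (hBm e).mp he with h | h | h
        · exact h ▸ hr1
        · exact h ▸ hr2
        · exact ((hUm e).mp h).1)) (hA s (by
        rcases (hBm s).mp hs' with h | h | h
        · exact h ▸ hr1
        · exact h ▸ hr2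
        · exact ((hUm s).mp h).1)) hr3
    by_cases h : x ∈ Z
    · simp only [h, if_true] at h1 h2 h3
      rw [htop x h] at h1 h2 h3
      obtain ⟨-, -, -, -, -, -, p3⟩ := ht1 x h
      have key : ∀ v ∈ B, v ≤ φ x ⊔ t x → v = r1 ∨ v = r2 ∨ v = t x := by
        intro v hv hvl
        rcases (hBm v).mp hv with h' | h' | h'
        · exact Or.inl h'
        · exact Or.inr (Or.inl h')
        · exact Or.inr (Or.inr (hpu x h (t x) (htU x h) v h' hvl))
      have hn : ∀ v ∈ B, ∀ w ∈ B, v ≤ φ x ⊔ t x → w ≤ φ x ⊔ t x → v = r1 → w = r2 → False :=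
        fun v _ w _ hv hw e1 e2 => p3 ⟨e1 ▸ hv, e2 ▸ hw⟩
      obtain ⟨n1, n2, n3⟩ := hne3
      rcases key a ha h1 with ea | ea | ea <;> rcases key e he h2 with ee | ee | ee <;>
        rcases key s hs' h3 with es | es | es <;>
        first
          | exact n1 (ea.trans ee.symm)
          | exact n2 (ea.trans es.symm)
          | exact n3 (ee.trans es.symm)
          | exact hn a ha e he h1 h2 ea ee
          | exact hn e he a ha h2 h1 ee ea
          | exact hn a ha s hs' h1 h3 ea es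
          | exact hn s hs' a ha h3 h1 es ea
          | exact hn e he s hs' h2 h3 ee es
          | exact hn s hs' e he h3 h2 es ee
    · simp only [h, if_false] at h1 h2 h3
      rw [hxbb] at h1 h2 h3
      obtain ⟨-, p1, p2⟩ := hP x hx k1 k2 k3 h
      have key : ∀ v ∈ B, v ≤ x ⊔ u → v ≤ u := by
        intro v hv hvl
        rcases (hBm v).mp hv with h' | h' | h'
        · exact absurd (h' ▸ hvl) p1
        · exact absurd (h' ▸ hvl) p2
        · exact ((hUm v).mp h').2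
      have h4 := rk_mono (sup_le (sup_le (key a ha h1) (key e he h2)) (key s hs' h3))
      omega

end Pool.Agent.Helper68.VL
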