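import Pool.Agent.Helper68.VL.Space

/-!
# Points of a long line as colours

Every point `z` of `Z` has its own line `φ z` missing `u`; it chooses a point `c` of `u` such that
the lines `z ⊔ c` and the planes `φ z ⊔ c` are different.
-/

set_option autoImplicit false
set_option linter.unusedSectionVars false

namespace Pool.Agent.Helper68.VL

open Pool.Agent.Helper28.BPack Pool.Agent.Helper61.Motz

variable {L : Type} [Lattice L] [BoundedOrder L] [Finite L] [IsUpperModularLattice L]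

open Classical in
/-- Every element of `Z` is in at most one of the sets. -/
theorem sum_card_le {α β : Type} (U : Finset α) (Z : Finset β) (p : α → β → Prop)
    (h : ∀ z ∈ Z, ∀ c ∈ U, ∀ c' ∈ U, p c z → p c' z → c = c') :
    ∑ c ∈ U, (Z.filter (p c)).card ≤ Z.card := by
  simp only [Finset.card_filter]
  rw [Finset.sum_comm]
  refine (Finset.sum_le_card_nsmul _ _ 1 ?_).trans (by simp)
  intro z hz
  rw [← Finset.card_filter, Finset.card_le_one]
  intro a ha b hb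
  rw [Finset.mem_filter] at ha hb
  exact h z hz a ha.1 b hb.1 ha.2 hb.2

/-- A line which meets `u` does so in one point. -/
theorem row_unique {u z c c' : L} (hu : rk u = 2) (hz : IsAtom z) (hzu : ¬ z ≤ u)
    (hc : IsAtom c) (hcu : c ≤ u) (hc' : IsAtom c') (hcu' : c' ≤ u) (h : c' ≤ z ⊔ c) : c' = c := by
  by_contra hne
  have hzc : z ≠ c := fun e => hzu (e ▸ hcu)
  have e1 : c' ⊔ c = z ⊔ c := line_eq hc' hc hne h le_sup_right (rk_line hz hc hzc)
  have e2 : c' ⊔ c = u := line_eq hc' hc hne hcu' hcu hu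
  exact hzu (by rw [← e2, e1]; exact le_sup_left)

/-- A plane through a line missing `u` meets `u` in one point. -/
theorem plane_unique {u g c c' : L} (hu : rk u = 2) (hg : rk g = 2) (hgu : rk (g ⊔ u) = 4)
    (hc : IsAtom c) (hcu : c ≤ u) (hc' : IsAtom c') (hcu' : c' ≤ u) (h : c' ≤ g ⊔ c) : c' = c := by
  by_contra hne
  have e2 : c' ⊔ c = u := line_eq hc' hc hne hcu' hcu hu
  have h1 : g ⊔ u ≤ g ⊔ c := sup_le le_sup_left (e2 ▸ sup_le h le_sup_right)
  have h2 := rk_mono h1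
  have h3 := rk_sup_atom_le (x := g) hc
  omega

/-- A line missing `u` contains no point of `u`. -/
theorem not_le_line {u g c : L} (hu : rk u = 2) (hg : rk g = 2) (hgu : rk (g ⊔ u) = 4)
    (hc : IsAtom c) (hcu : c ≤ u) {c' : L} (hc' : IsAtom c') (hcu' : c' ≤ u) (hcc : c ≠ c') :
    ¬ c ≤ g := by
  intro h
  have e2 : c ⊔ c' = u := line_eq hc hc' hcc hcu hcu' hu
  have h1 : g ⊔ u ≤ g ⊔ c' := sup_le le_sup_left (e2 ▸ sup_le (h.trans le_sup_left) le_sup_right)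
  have h2 := rk_mono h1
  have h3 := rk_sup_atom_le (x := g) hc'
  omega

open Classical in
/-- **The colours.** -/
theorem exists_colours {A Z : Finset L} (hA : ∀ a ∈ A, IsAtom a) {u : L} (hu : rk u = 2)
    {r1 r2 b0 b1 : L} {φ : L → L} (hr1 : IsAtom r1) (hr2 : IsAtom r2) (hr12 : r1 ≠ r2)
    (hZ : ∀ z ∈ Z, z ∈ A ∧ ¬ z ≤ u ∧ z ≠ r1 ∧ z ≠ r2 ∧ rk (φ z) = 2 ∧ rk (φ z ⊔ u) = 4 ∧
      φ z ≠ r1 ⊔ r2)
    (hφ : ∀ z ∈ Z, ∀ w ∈ Z, φ z = φ w → z = w)
    {M : ℕ} (hM : 2 * M + 5 ≤ (A.filter (fun a => a ≤ u)).card) (hZM : 2 * Z.card ≤ M ^ 2) :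
    ∃ t : L → L, (∀ z ∈ Z, t z ∈ A ∧ t z ≤ u ∧ t z ≠ b0 ∧ t z ≠ b1 ∧ ¬ r1 ≤ z ⊔ t z ∧
        ¬ r2 ≤ z ⊔ t z ∧ ¬ (r1 ≤ φ z ⊔ t z ∧ r2 ≤ φ z ⊔ t z)) ∧
      (∀ z ∈ Z, ∀ w ∈ Z, z ⊔ t z = w ⊔ t w → z = w) ∧
      (∀ z ∈ Z, ∀ w ∈ Z, φ z ⊔ t z = φ w ⊔ t w → z = w) := by
  rcases Z.eq_empty_or_nonempty with hZ0 | ⟨z0, hz0⟩
  · refine ⟨fun x => x, ?_, ?_, ?_⟩ <;> intro z hz <;> rw [hZ0] at hz <;>
      exact absurd hz (Finset.notMem_empty z)
  have hM2 : 2 ≤ M := by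
    have h1 : 0 < Z.card := Finset.card_pos.mpr ⟨z0, hz0⟩
    by_contra h
    have h2 : M ≤ 1 := by omega
    have h3 : M ^ 2 ≤ 1 ^ 2 := Nat.pow_le_pow_left h2 2
    omega
  set U := A.filter (fun a => a ≤ u) with hU
  have hUm : ∀ c, c ∈ U ↔ c ∈ A ∧ c ≤ u := fun c => by rw [hU, Finset.mem_filter]
  have hUa : ∀ c ∈ U, IsAtom c := fun c hc => hA c ((hUm c).mp hc).1
  have hUu : ∀ c ∈ U, c ≤ u := fun c hc => ((hUm c).mp hc).2
  have hother : ∀ c ∈ U, ∃ c' ∈ U, c ≠ c' := by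
    intro c _
    obtain ⟨c', h1, h2⟩ := Finset.exists_mem_ne (s := U) (by omega) c
    exact ⟨c', h1, h2.symm⟩
  have hncg : ∀ z ∈ Z, ∀ c ∈ U, ¬ c ≤ φ z := by
    intro z hz c hc
    obtain ⟨c', h1, h2⟩ := hother c hc
    obtain ⟨-, -, -, -, k5, k6, -⟩ := hZ z hz
    exact not_le_line hu k5 k6 (hUa c hc) (hUu c hc) (hUa c' h1) (hUu c' h1) h2
  have hrow2 : ∀ z ∈ Z, ∀ c ∈ U, rk (z ⊔ c) = 2 := by
    intro z hz c hc
    obtain ⟨k1, k2, -⟩ := hZ z hz
    exact rk_line (hA z k1) (hUa c hc) (fun e => k2 (e ▸ hUu c hc))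
  have hpl3 : ∀ z ∈ Z, ∀ c ∈ U, rk (φ z ⊔ c) = 3 := by
    intro z hz c hc
    obtain ⟨-, -, -, -, k5, -⟩ := hZ z hz
    rw [rk_sup_atom (hUa c hc) (hncg z hz c hc), k5]
  have hru : ∀ z ∈ Z, ∀ c ∈ U, ∀ c' ∈ U, c' ≤ z ⊔ c → c' = c := by
    intro z hz c hc c' hc' h
    obtain ⟨k1, k2, -⟩ := hZ z hz
    exact row_unique hu (hA z k1) k2 (hUa c hc) (hUu c hc) (hUa c' hc') (hUu c' hc') h
  have hpu : ∀ z ∈ Z, ∀ c ∈ U, ∀ c' ∈ U, c' ≤ φ z ⊔ c → c' = c := by
    intro z hz c hc c' hc' h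
    obtain ⟨-, -, -, -, k5, k6, -⟩ := hZ z hz
    exact plane_unique hu k5 k6 (hUa c hc) (hUu c hc) (hUa c' hc') (hUu c' hc') h
  -- a point on two rows of `z`
  have hrr : ∀ z ∈ Z, ∀ x, IsAtom x → x ≠ z → ∀ c ∈ U, ∀ c' ∈ U, x ≤ z ⊔ c → x ≤ z ⊔ c' →
      c = c' := by
    intro z hz x hx hxz c hc c' hc' h1 h2
    have hza := hA z (hZ z hz).1
    have e1 : x ⊔ z = z ⊔ c := line_eq hx hza hxz h1 le_sup_left (hrow2 z hz c hc)
    have e2 : x ⊔ z = z ⊔ c' := line_eq hx hza hxz h2 le_sup_left (hrow2 z hz c' hc')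
    exact hru z hz c' hc' c hc (by rw [← e2, e1]; exact le_sup_right)
  -- a line in two planes of `z`
  have hpp : ∀ z ∈ Z, ∀ g, rk g = 2 → g ≠ φ z → ∀ c ∈ U, ∀ c' ∈ U, g ≤ φ z ⊔ c →
      g ≤ φ z ⊔ c' → c = c' := by
    intro z hz g hg hgz c hc c' hc' h1 h2
    have k5 := (hZ z hz).2.2.2.2.1
    have h3 : 3 ≤ rk (g ⊔ φ z) := by
      have h4 : rk (φ z) < rk (g ⊔ φ z) := by
        refine rk_lt (lt_of_le_of_ne le_sup_right ?_)
        intro e
        apply hgz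
        exact eq_of_le_of_rk (e ▸ le_sup_left) (by rw [hg, k5])
      omega
    have e1 : g ⊔ φ z = φ z ⊔ c := eq_of_le_of_rk (sup_le h1 le_sup_left)
      (by rw [hpl3 z hz c hc]; exact h3)
    have e2 : g ⊔ φ z = φ z ⊔ c' := eq_of_le_of_rk (sup_le h2 le_sup_left)
      (by rw [hpl3 z hz c' hc']; exact h3)
    exact hpu z hz c' hc' c hc (by rw [← e2, e1]; exact le_sup_right)
  set R : L → L → ℕ := fun z c => (Z.filter (fun w => w ≤ z ⊔ c)).card with hR
  set S : L → L → ℕ := fun z c => (Z.filter (fun w => φ w ≤ φ z ⊔ c)).card with hS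
  set ok : L → L → Prop := fun z c => c ≠ b0 ∧ c ≠ b1 ∧ ¬ r1 ≤ z ⊔ c ∧ ¬ r2 ≤ z ⊔ c ∧
    ¬ (r1 ≤ φ z ⊔ c ∧ r2 ≤ φ z ⊔ c) ∧ R z c + S z c ≤ M with hok
  -- enough colours
  have hcount : ∀ z ∈ Z, M ≤ (U.filter (ok z)).card := by
    intro z hz
    obtain ⟨k1, k2, k3, k4, k5, k6, k7⟩ := hZ z hz
    set N := U.filter (fun c => M < R z c + S z c) with hN
    have hN1 : N.card * (M - 1) ≤ 2 * (Z.card - 1) := by
      have e0 : (Z.erase z).card = Z.card - 1 := Finset.card_erase_of_mem hz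
      have e1 : ∑ c ∈ U, ((Z.erase z).filter (fun w => w ≤ z ⊔ c)).card ≤ (Z.erase z).card :=
        sum_card_le U (Z.erase z) (fun c w => w ≤ z ⊔ c) (by
          intro w hw c hc c' hc' h1 h2
          obtain ⟨hw1, hw2⟩ := Finset.mem_erase.mp hw
          exact hrr z hz w (hA w (hZ w hw2).1) hw1 c hc c' hc' h1 h2)
      have e2 : ∑ c ∈ U, ((Z.erase z).filter (fun w => φ w ≤ φ z ⊔ c)).card ≤ (Z.erase z).card :=
        sum_card_le U (Z.erase z) (fun c w => φ w ≤ φ z ⊔ c) (by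
          intro w hw c hc c' hc' h1 h2
          obtain ⟨hw1, hw2⟩ := Finset.mem_erase.mp hw
          exact hpp z hz (φ w) (hZ w hw2).2.2.2.2.1 (fun e => hw1 (hφ w hw2 z hz e)) c hc
            c' hc' h1 h2)
      have e3 : ∀ p : L → Prop, (Z.filter p).card ≤ ((Z.erase z).filter p).card + 1 := by
        intro p
        refine le_trans (Finset.card_le_card ?_) (Finset.card_insert_le z _)
        intro w hw
        obtain ⟨hw1, hw2⟩ := Finset.mem_filter.mp hw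
        by_cases h : w = z
        · rw [h]; exact Finset.mem_insert_self _ _
        · exact Finset.mem_insert_of_mem (Finset.mem_filter.mpr
            ⟨Finset.mem_erase.mpr ⟨h, hw1⟩, hw2⟩)
      have e4 : N.card * (M - 1) ≤ ∑ c ∈ N, (((Z.erase z).filter (fun w => w ≤ z ⊔ c)).card +
          ((Z.erase z).filter (fun w => φ w ≤ φ z ⊔ c)).card) := by
        rw [← smul_eq_mul]
        refine Finset.card_nsmul_le_sum _ _ _ ?_
        intro c hc
        have h1 := (Finset.mem_filter.mp hc).2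
        have h2 := e3 (fun w => w ≤ z ⊔ c)
        have h3 := e3 (fun w => φ w ≤ φ z ⊔ c)
        simp only [hR, hS] at h1
        omega
      have e5 : ∑ c ∈ N, (((Z.erase z).filter (fun w => w ≤ z ⊔ c)).card +
          ((Z.erase z).filter (fun w => φ w ≤ φ z ⊔ c)).card) ≤
          ∑ c ∈ U, (((Z.erase z).filter (fun w => w ≤ z ⊔ c)).card +
          ((Z.erase z).filter (fun w => φ w ≤ φ z ⊔ c)).card) :=
        Finset.sum_le_sum_of_subset (Finset.filter_subset _ _)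
      refine e4.trans (e5.trans ?_)
      rw [Finset.sum_add_distrib]
      omega
    have hN2 : N.card ≤ M := by
      by_contra h
      have h1 : (M + 1) * (M - 1) ≤ N.card * (M - 1) := Nat.mul_le_mul_right _ (by omega)
      have h2 : (M + 1) * (M - 1) = M ^ 2 - 1 := by
        obtain ⟨m, rfl⟩ : ∃ m, M = m + 1 := ⟨M - 1, by omega⟩
        have : (m + 1) ^ 2 = (m + 1 + 1) * m + 1 := by ring
        rw [this]
        simp
      have h3 : 0 < Z.card := Finset.card_pos.mpr ⟨z0, hz0⟩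
      omega
    have hone1 : ∀ r, IsAtom r → r ≠ z → (U.filter (fun c => r ≤ z ⊔ c)).card ≤ 1 := by
      intro r hr hrz
      rw [Finset.card_le_one]
      intro c hc c' hc'
      rw [Finset.mem_filter] at hc hc'
      exact hrr z hz r hr hrz c hc.1 c' hc'.1 hc.2 hc'.2
    have hone2 : (U.filter (fun c => r1 ≤ φ z ⊔ c ∧ r2 ≤ φ z ⊔ c)).card ≤ 1 := by
      rw [Finset.card_le_one]
      intro c hc c' hc'
      rw [Finset.mem_filter] at hc hc'
      exact hpp z hz (r1 ⊔ r2) (rk_line hr1 hr2 hr12) (Ne.symm k7) c hc.1 c' hc'.1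
        (sup_le hc.2.1 hc.2.2) (sup_le hc'.2.1 hc'.2.2)
    have hcov : U ⊆ U.filter (ok z) ∪ ({b0, b1} ∪ (U.filter (fun c => r1 ≤ z ⊔ c) ∪
        (U.filter (fun c => r2 ≤ z ⊔ c) ∪ (U.filter (fun c => r1 ≤ φ z ⊔ c ∧ r2 ≤ φ z ⊔ c) ∪
          N)))) := by
      intro c hc
      simp only [Finset.mem_union, Finset.mem_filter, Finset.mem_insert, Finset.mem_singleton,
        hN, hok, hc, true_and]
      by_cases q1 : c = b0
      · exact Or.inr (Or.inl (Or.inl q1))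
      by_cases q2 : c = b1
      · exact Or.inr (Or.inl (Or.inr q2))
      by_cases q3 : r1 ≤ z ⊔ c
      · exact Or.inr (Or.inr (Or.inl q3))
      by_cases q4 : r2 ≤ z ⊔ c
      · exact Or.inr (Or.inr (Or.inr (Or.inl q4)))
      by_cases q5 : r1 ≤ φ z ⊔ c ∧ r2 ≤ φ z ⊔ c
      · exact Or.inr (Or.inr (Or.inr (Or.inr (Or.inl q5))))
      by_cases q6 : M < R z c + S z c
      · exact Or.inr (Or.inr (Or.inr (Or.inr (Or.inr q6))))
      exact Or.inl ⟨q1, q2, q3, q4, q5, by omega⟩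
    have h1 := Finset.card_le_card hcov
    have h2 := Finset.card_union_le (U.filter (ok z)) ({b0, b1} ∪
      (U.filter (fun c => r1 ≤ z ⊔ c) ∪ (U.filter (fun c => r2 ≤ z ⊔ c) ∪
      (U.filter (fun c => r1 ≤ φ z ⊔ c ∧ r2 ≤ φ z ⊔ c) ∪ N))))
    have h3 := Finset.card_union_le ({b0, b1} : Finset L)
      (U.filter (fun c => r1 ≤ z ⊔ c) ∪ (U.filter (fun c => r2 ≤ z ⊔ c) ∪
      (U.filter (fun c => r1 ≤ φ z ⊔ c ∧ r2 ≤ φ z ⊔ c) ∪ N)))
    have h4 := Finset.card_union_le (U.filter (fun c => r1 ≤ z ⊔ c))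
      (U.filter (fun c => r2 ≤ z ⊔ c) ∪ (U.filter (fun c => r1 ≤ φ z ⊔ c ∧ r2 ≤ φ z ⊔ c) ∪ N))
    have h5 := Finset.card_union_le (U.filter (fun c => r2 ≤ z ⊔ c))
      (U.filter (fun c => r1 ≤ φ z ⊔ c ∧ r2 ≤ φ z ⊔ c) ∪ N)
    have h6 := Finset.card_union_le (U.filter (fun c => r1 ≤ φ z ⊔ c ∧ r2 ≤ φ z ⊔ c)) N
    have h7 := Finset.card_le_two (a := b0) (b := b1)
    have h8 := hone1 r1 hr1 (Ne.symm k3)
    have h9 := hone1 r2 hr2 (Ne.symm k4)
    omega
  -- the rainbow matching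
  set T : Finset (L × L) := (Z ×ˢ U).filter (fun t => ok t.1 t.2) with hT
  have hTm : ∀ t, t ∈ T ↔ (t.1 ∈ Z ∧ t.2 ∈ U) ∧ ok t.1 t.2 := fun t => by
    rw [hT, Finset.mem_filter, Finset.mem_product]
  have : Nonempty (L × L) := ⟨(⊥, ⊥)⟩
  obtain ⟨f, hf1, hf2⟩ := Pool.Agent.Helper83.BQ.rainbow_card T Z Prod.fst
    (fun t => {t.1 ⊔ t.2, φ t.1 ⊔ t.2}) M (by omega)
    (fun t ht => ((hTm t).mp ht).1.1)
    (by
      intro t ht
      obtain ⟨⟨k1, k2⟩, -, -, -, -, -, k3⟩ := (hTm t).mp ht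
      have hne : t.1 ⊔ t.2 ≠ φ t.1 ⊔ t.2 := by
        intro e
        have h1 := hrow2 t.1 k1 t.2 k2
        have h2 := hpl3 t.1 k1 t.2 k2
        rw [e] at h1
        omega
      rw [Finset.sum_pair hne]
      have e1 : (T.filter (fun s => t.1 ⊔ t.2 ∈ ({s.1 ⊔ s.2, φ s.1 ⊔ s.2} : Finset L))).card ≤
          R t.1 t.2 := by
        have hkey : ∀ s ∈ T.filter (fun s => t.1 ⊔ t.2 ∈
            ({s.1 ⊔ s.2, φ s.1 ⊔ s.2} : Finset L)), (s.1 ∈ Z ∧ s.2 ∈ U) ∧
            t.1 ⊔ t.2 = s.1 ⊔ s.2 := by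
          intro s hs
          obtain ⟨hs1, hs2⟩ := Finset.mem_filter.mp hs
          have hs3 := ((hTm s).mp hs1).1
          refine ⟨hs3, ?_⟩
          rw [Finset.mem_insert, Finset.mem_singleton] at hs2
          rcases hs2 with h | h
          · exact h
          · exfalso
            have h1 := hrow2 t.1 k1 t.2 k2
            have h2 := hpl3 s.1 hs3.1 s.2 hs3.2
            rw [h] at h1
            omega
        refine Finset.card_le_card_of_injOn Prod.fst ?_ ?_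
        · intro s hs
          obtain ⟨hs1, hs2⟩ := hkey s (Finset.mem_coe.mp hs)
          rw [Finset.mem_coe, Finset.mem_filter]
          exact ⟨hs1.1, by rw [hs2]; exact le_sup_left⟩
        · intro s hs s' hs' e
          obtain ⟨hs1, hs2⟩ := hkey s (Finset.mem_coe.mp hs)
          obtain ⟨hs1', hs2'⟩ := hkey s' (Finset.mem_coe.mp hs')
          refine Prod.ext e (hru s'.1 hs1'.1 s'.2 hs1'.2 s.2 hs1.2 ?_)
          rw [← hs2', hs2]
          exact le_sup_right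
      have e2 : (T.filter (fun s => φ t.1 ⊔ t.2 ∈
          ({s.1 ⊔ s.2, φ s.1 ⊔ s.2} : Finset L))).card ≤ S t.1 t.2 := by
        have hkey : ∀ s ∈ T.filter (fun s => φ t.1 ⊔ t.2 ∈
            ({s.1 ⊔ s.2, φ s.1 ⊔ s.2} : Finset L)), (s.1 ∈ Z ∧ s.2 ∈ U) ∧
            φ t.1 ⊔ t.2 = φ s.1 ⊔ s.2 := by
          intro s hs
          obtain ⟨hs1, hs2⟩ := Finset.mem_filter.mp hs
          have hs3 := ((hTm s).mp hs1).1
          refine ⟨hs3, ?_⟩
          rw [Finset.mem_insert, Finset.mem_singleton] at hs2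
          rcases hs2 with h | h
          · exfalso
            have h1 := hpl3 t.1 k1 t.2 k2
            have h2 := hrow2 s.1 hs3.1 s.2 hs3.2
            rw [h] at h1
            omega
          · exact h
        refine Finset.card_le_card_of_injOn Prod.fst ?_ ?_
        · intro s hs
          obtain ⟨hs1, hs2⟩ := hkey s (Finset.mem_coe.mp hs)
          rw [Finset.mem_coe, Finset.mem_filter]
          exact ⟨hs1.1, by rw [hs2]; exact le_sup_left⟩
        · intro s hs s' hs' e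
          obtain ⟨hs1, hs2⟩ := hkey s (Finset.mem_coe.mp hs)
          obtain ⟨hs1', hs2'⟩ := hkey s' (Finset.mem_coe.mp hs')
          refine Prod.ext e (hpu s'.1 hs1'.1 s'.2 hs1'.2 s.2 hs1.2 ?_)
          rw [← hs2', hs2]
          exact le_sup_right
      exact (Nat.add_le_add e1 e2).trans k3)
    (by
      intro x hx
      refine (hcount x hx).trans ?_
      refine Finset.card_le_card_of_injOn (fun c => (x, c)) ?_ ?_
      · intro c hc
        obtain ⟨hc1, hc2⟩ := Finset.mem_filter.mp (Finset.mem_coe.mp hc)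
        rw [Finset.mem_coe, Finset.mem_filter, hTm]
        exact ⟨⟨⟨hx, hc1⟩, hc2⟩, rfl⟩
      · intro c _ c' _ e
        exact congrArg Prod.snd e)
  refine ⟨fun z => (f z).2, ?_, ?_, ?_⟩
  · intro z hz
    obtain ⟨k1, k2⟩ := hf1 z hz
    have k2' : (f z).1 = z := k2
    obtain ⟨⟨k3, k4⟩, q1, q2, q3, q4, q5, -⟩ := (hTm _).mp k1
    rw [k2'] at q3 q4 q5
    exact ⟨((hUm _).mp k4).1, ((hUm _).mp k4).2, q1, q2, q3, q4, q5⟩
  · intro z hz w hw e
    by_contra hne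
    have h := hf2 z hz w hw hne
    have kz : (f z).1 = z := (hf1 z hz).2
    have kw : (f w).1 = w := (hf1 w hw).2
    rw [Finset.disjoint_left] at h
    refine h (a := z ⊔ (f z).2) ?_ ?_
    · rw [kz]; exact Finset.mem_insert_self _ _
    · change z ⊔ (f z).2 = w ⊔ (f w).2 at e
      rw [e, kw]; exact Finset.mem_insert_self _ _
  · intro z hz w hw e
    by_contra hne
    have h := hf2 z hz w hw hne
    have kz : (f z).1 = z := (hf1 z hz).2
    have kw : (f w).1 = w := (hf1 w hw).2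
    rw [Finset.disjoint_left] at h
    refine h (a := φ z ⊔ (f z).2) ?_ ?_
    · rw [kz]; exact Finset.mem_insert_of_mem (Finset.mem_singleton_self _)
    · change φ z ⊔ (f z).2 = φ w ⊔ (f w).2 at e
      rw [e, kw]; exact Finset.mem_insert_of_mem (Finset.mem_singleton_self _)

end Pool.Agent.Helper68.VL
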