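import Pool.Agent.Helper83.BQ.RainbowRes

/-!
# Own lines for the points of a linear space

`E` is a finite linear space which is not a line, `p` a point of it.  There are two points `r1`,
`r2`, not collinear with `p`, and different lines through all the other points, different from the
three lines of the triangle `p`, `r1`, `r2`.
-/

set_option autoImplicit false
set_option linter.unusedSectionVars false

namespace Pool.Agent.Helper68.VL

open Finset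

open Classical in
/-- The triangle `a0`, `a1`, `c` has two points on a longest line. -/
theorem own_line {α β : Type} [Finite β] {E : Finset α}
    {ln : α → α → β} {I : α → β → Prop}
    (h1 : ∀ x ∈ E, ∀ y ∈ E, x ≠ y → I x (ln x y) ∧ I y (ln x y))
    (h2 : ∀ x ∈ E, ∀ y ∈ E, x ≠ y → ∀ z ∈ E, ∀ w ∈ E, z ≠ w → I z (ln x y) → I w (ln x y) →
      ln z w = ln x y)
    {a0 a1 c : α} (ha0 : a0 ∈ E) (ha1 : a1 ∈ E) (h01 : a0 ≠ a1) (hc : c ∈ E)
    (hcl : ¬ I c (ln a0 a1))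
    (hmax : ∀ x ∈ E, ∀ y ∈ E, x ≠ y →
      (E.filter (fun z => I z (ln x y))).card ≤ (E.filter (fun z => I z (ln a0 a1))).card) :
    ∃ φ : α → β, (∀ z ∈ E, z ≠ a0 → z ≠ a1 → z ≠ c →
        (∃ y ∈ E, y ≠ z ∧ φ z = ln z y) ∧ φ z ≠ ln a0 a1 ∧ φ z ≠ ln a0 c ∧ φ z ≠ ln a1 c) ∧
      (∀ z ∈ E, z ≠ a0 → z ≠ a1 → z ≠ c → ∀ w ∈ E, w ≠ a0 → w ≠ a1 → w ≠ c →
        φ z = φ w → z = w) := by
  set l := ln a0 a1 with hl
  set P := E.filter (fun z => I z l) with hP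
  have hPm : ∀ z, z ∈ P ↔ z ∈ E ∧ I z l := fun z => by rw [hP, mem_filter]
  have hlE : ∀ z ∈ E, ∀ w ∈ E, z ≠ w → I z l → I w l → ln z w = l := h2 a0 ha0 a1 ha1 h01
  have huni : ∀ z ∈ E, ¬ I z l → ∀ α ∈ P, ∀ α' ∈ P, I α' (ln z α) → α' = α := by
    intro z hz hzl α hα α' hα' h
    by_contra hne
    have hα1 := (hPm α).mp hα
    have hα2 := (hPm α').mp hα'
    have hzα : z ≠ α := fun e => hzl (e ▸ hα1.2)
    have e1 : ln α' α = ln z α := h2 z hz α hα1.1 hzα α' hα2.1 α hα1.1 hne h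
      (h1 z hz α hα1.1 hzα).2
    have e2 : ln α' α = l := hlE α' hα2.1 α hα1.1 hne hα2.2 hα1.2
    exact hzl (by rw [← e2, e1]; exact (h1 z hz α hα1.1 hzα).1)
  have hK : 1 < P.card := by
    rw [Finset.one_lt_card]
    exact ⟨a0, (hPm a0).mpr ⟨ha0, (h1 a0 ha0 a1 ha1 h01).1⟩, a1,
      (hPm a1).mpr ⟨ha1, (h1 a0 ha0 a1 ha1 h01).2⟩, h01⟩
  have hne : ∀ z, ¬ I z l → ∀ α ∈ P, z ≠ α := fun z hz α hα e => hz (e ▸ ((hPm α).mp hα).2)
  set T : Finset (α × α) := (E ×ˢ E).filter (fun t => ¬ I t.1 l ∧ t.1 ≠ c ∧ t.2 ∈ P ∧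
    ¬ I c (ln t.1 t.2)) with hT
  have hTm : ∀ t, t ∈ T ↔ (t.1 ∈ E ∧ t.2 ∈ E) ∧ ¬ I t.1 l ∧ t.1 ≠ c ∧ t.2 ∈ P ∧
      ¬ I c (ln t.1 t.2) := fun t => by rw [hT, mem_filter, mem_product]
  have : Nonempty (α × α) := ⟨(c, c)⟩
  obtain ⟨f, hf1, hf2⟩ := Pool.Agent.Helper83.BQ.rainbow_card T
    (E.filter (fun z => ¬ I z l ∧ z ≠ c)) Prod.fst (fun t => {ln t.1 t.2}) (P.card - 1)
    (by omega)
    (by
      intro t ht
      obtain ⟨⟨k1, k2⟩, k3, k4, k5, k6⟩ := (hTm t).mp ht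
      exact mem_filter.mpr ⟨k1, k3, k4⟩)
    (by
      intro t ht
      obtain ⟨⟨k1, k2⟩, k3, k4, k5, k6⟩ := (hTm t).mp ht
      rw [Finset.sum_singleton]
      have hin := h1 t.1 k1 t.2 k2 (hne _ k3 _ k5)
      have e1 : (T.filter (fun s => ln t.1 t.2 ∈ ({ln s.1 s.2} : Finset β))).card ≤
          ((E.filter (fun z => I z (ln t.1 t.2))).erase t.2).card := by
        refine Finset.card_le_card_of_injOn Prod.fst ?_ ?_
        · intro s hs
          obtain ⟨hs1, hs2⟩ := Finset.mem_filter.mp (Finset.mem_coe.mp hs)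
          rw [Finset.mem_singleton] at hs2
          obtain ⟨⟨j1, j2⟩, j3, j4, j5, j6⟩ := (hTm s).mp hs1
          rw [Finset.mem_coe, Finset.mem_erase, Finset.mem_filter]
          refine ⟨hne _ j3 _ k5, j1, ?_⟩
          rw [hs2]
          exact (h1 s.1 j1 s.2 j2 (hne _ j3 _ j5)).1
        · intro s hs s' hs' e
          obtain ⟨hs1, hs2⟩ := Finset.mem_filter.mp (Finset.mem_coe.mp hs)
          obtain ⟨hs1', hs2'⟩ := Finset.mem_filter.mp (Finset.mem_coe.mp hs')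
          rw [Finset.mem_singleton] at hs2 hs2'
          obtain ⟨⟨j1, j2⟩, j3, j4, j5, j6⟩ := (hTm s).mp hs1
          obtain ⟨⟨i1, i2⟩, i3, i4, i5, i6⟩ := (hTm s').mp hs1'
          have e2 : s.2 = t.2 := huni t.1 k1 k3 t.2 k5 s.2 j5
            (by rw [hs2]; exact (h1 s.1 j1 s.2 j2 (hne _ j3 _ j5)).2)
          have e3 : s'.2 = t.2 := huni t.1 k1 k3 t.2 k5 s'.2 i5
            (by rw [hs2']; exact (h1 s'.1 i1 s'.2 i2 (hne _ i3 _ i5)).2)
          exact Prod.ext e (e2.trans e3.symm)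
      have e4 : t.2 ∈ E.filter (fun z => I z (ln t.1 t.2)) :=
        Finset.mem_filter.mpr ⟨k2, hin.2⟩
      rw [Finset.card_erase_of_mem e4] at e1
      have e5 := hmax t.1 k1 t.2 k2 (hne _ k3 _ k5)
      exact e1.trans (Nat.sub_le_sub_right e5 1))
    (by
      intro x hx
      obtain ⟨hx1, hx2, hx3⟩ := Finset.mem_filter.mp hx
      have e1 : (P.filter (fun a => I c (ln x a))).card ≤ 1 := by
        rw [Finset.card_le_one]
        intro a ha a' ha'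
        obtain ⟨ha1, ha2⟩ := Finset.mem_filter.mp ha
        obtain ⟨ha1', ha2'⟩ := Finset.mem_filter.mp ha'
        have haE := (hPm a).mp ha1
        have haE' := (hPm a').mp ha1'
        have e2 := h2 x hx1 a haE.1 (hne _ hx2 _ ha1) x hx1 c hc hx3
          (h1 x hx1 a haE.1 (hne _ hx2 _ ha1)).1 ha2
        have e3 := h2 x hx1 a' haE'.1 (hne _ hx2 _ ha1') x hx1 c hc hx3
          (h1 x hx1 a' haE'.1 (hne _ hx2 _ ha1')).1 ha2'
        refine huni x hx1 hx2 a' ha1' a ha1 ?_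
        rw [← e3, e2]
        exact (h1 x hx1 a haE.1 (hne _ hx2 _ ha1)).2
      have e4 := Finset.card_filter_add_card_filter_not (s := P) (fun a => I c (ln x a))
      have e5 : (P.filter (fun a => ¬ I c (ln x a))).card ≤
          (T.filter (fun t => t.1 = x)).card := by
        refine Finset.card_le_card_of_injOn (fun a => (x, a)) ?_ ?_
        · intro a ha
          obtain ⟨ha1, ha2⟩ := Finset.mem_filter.mp (Finset.mem_coe.mp ha)
          rw [Finset.mem_coe, Finset.mem_filter, hTm]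
          exact ⟨⟨⟨hx1, ((hPm a).mp ha1).1⟩, hx2, hx3, ha1, ha2⟩, rfl⟩
        · intro a _ a' _ e
          exact congrArg Prod.snd e
      omega)
  have hfm : ∀ z ∈ E, ¬ I z l → z ≠ c → (f z).1 = z ∧ (f z).2 ∈ P ∧
      ¬ I c (ln z (f z).2) := by
    intro z hz hzl hzc
    obtain ⟨k1, k2⟩ := hf1 z (mem_filter.mpr ⟨hz, hzl, hzc⟩)
    obtain ⟨-, -, -, k5, k6⟩ := (hTm _).mp k1
    have k7 : (f z).1 = z := k2
    rw [k7] at k6
    exact ⟨k7, k5, k6⟩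
  refine ⟨fun z => if I z l then ln z c else ln z (f z).2, ?_, ?_⟩
  · intro z hz hz0 hz1 hzc
    by_cases hzl : I z l
    · simp only [hzl, if_true]
      refine ⟨⟨c, hc, hzc.symm, rfl⟩, ?_, ?_, ?_⟩
      · intro e
        exact hcl (e ▸ (h1 z hz c hc hzc).2)
      · intro e
        have hac : a0 ≠ c := fun e' => hcl (e' ▸ (h1 a0 ha0 a1 ha1 h01).1)
        have e1 := h2 a0 ha0 c hc hac z hz a0 ha0 hz0 (e ▸ (h1 z hz c hc hzc).1)
          (h1 a0 ha0 c hc hac).1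
        have e2 := hlE z hz a0 ha0 hz0 hzl (h1 a0 ha0 a1 ha1 h01).1
        exact hcl (by rw [← e2, e1]; exact (h1 a0 ha0 c hc hac).2)
      · intro e
        have hac : a1 ≠ c := fun e' => hcl (e' ▸ (h1 a0 ha0 a1 ha1 h01).2)
        have e1 := h2 a1 ha1 c hc hac z hz a1 ha1 hz1 (e ▸ (h1 z hz c hc hzc).1)
          (h1 a1 ha1 c hc hac).1
        have e2 := hlE z hz a1 ha1 hz1 hzl (h1 a0 ha0 a1 ha1 h01).2
        exact hcl (by rw [← e2, e1]; exact (h1 a1 ha1 c hc hac).2)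
    · simp only [hzl, if_false]
      obtain ⟨k1, k2, k3⟩ := hfm z hz hzl hzc
      have k4 := ((hPm _).mp k2).1
      have k5 := hne z hzl _ k2
      refine ⟨⟨_, k4, k5.symm, rfl⟩, ?_, ?_, ?_⟩
      · intro e
        exact hzl (e ▸ (h1 z hz _ k4 k5).1)
      · intro e
        have hac : a0 ≠ c := fun e' => hcl (e' ▸ (h1 a0 ha0 a1 ha1 h01).1)
        exact k3 (e ▸ (h1 a0 ha0 c hc hac).2)
      · intro e
        have hac : a1 ≠ c := fun e' => hcl (e' ▸ (h1 a0 ha0 a1 ha1 h01).2)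
        exact k3 (e ▸ (h1 a1 ha1 c hc hac).2)
  · intro z hz hz0 hz1 hzc w hw hw0 hw1 hwc e
    by_contra hzw
    by_cases hzl : I z l
    · by_cases hwl : I w l
      · simp only [hzl, hwl, if_true] at e
        have e1 := h2 w hw c hc hwc z hz w hw hzw (e ▸ (h1 z hz c hc hzc).1)
          (h1 w hw c hc hwc).1
        have e2 := hlE z hz w hw hzw hzl hwl
        exact hcl (by rw [← e2, e1]; exact (h1 w hw c hc hwc).2)
      · simp only [hzl, hwl, if_true, if_false] at e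
        exact (hfm w hw hwl hwc).2.2 (e ▸ (h1 z hz c hc hzc).2)
    · by_cases hwl : I w l
      · simp only [hzl, hwl, if_true, if_false] at e
        exact (hfm z hz hzl hzc).2.2 (e ▸ (h1 w hw c hc hwc).2)
      · simp only [hzl, hwl, if_false] at e
        have k := hf2 z (mem_filter.mpr ⟨hz, hzl, hzc⟩) w (mem_filter.mpr ⟨hw, hwl, hwc⟩) hzw
        rw [Finset.disjoint_singleton] at k
        rw [(hfm z hz hzl hzc).1, (hfm w hw hwl hwc).1] at k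
        exact k e

/-- The triangle contains a given point. -/
theorem own_frame {α β : Type} [Finite β] {E : Finset α}
    {ln : α → α → β} {I : α → β → Prop}
    (h1 : ∀ x ∈ E, ∀ y ∈ E, x ≠ y → I x (ln x y) ∧ I y (ln x y))
    (h2 : ∀ x ∈ E, ∀ y ∈ E, x ≠ y → ∀ z ∈ E, ∀ w ∈ E, z ≠ w → I z (ln x y) → I w (ln x y) →
      ln z w = ln x y)
    (hsym : ∀ x y, ln x y = ln y x) {p : α} (hp : p ∈ E) (hne : ∃ q ∈ E, q ≠ p)
    (hnc : ∀ x ∈ E, ∀ y ∈ E, x ≠ y → ∃ z ∈ E, ¬ I z (ln x y)) :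
    ∃ r1 ∈ E, ∃ r2 ∈ E, r1 ≠ p ∧ r2 ≠ p ∧ r1 ≠ r2 ∧ ¬ I p (ln r1 r2) ∧ ∃ φ : α → β,
      (∀ z ∈ E, z ≠ p → z ≠ r1 → z ≠ r2 →
        (∃ y ∈ E, y ≠ z ∧ φ z = ln z y) ∧ φ z ≠ ln p r1 ∧ φ z ≠ ln p r2 ∧ φ z ≠ ln r1 r2) ∧
      (∀ z ∈ E, z ≠ p → z ≠ r1 → z ≠ r2 → ∀ w ∈ E, w ≠ p → w ≠ r1 → w ≠ r2 →
        φ z = φ w → z = w) := by
  classical
  obtain ⟨q, hq, hqp⟩ := hne
  obtain ⟨⟨a0, a1⟩, ha, hmax'⟩ := Finset.exists_max_image E.offDiag
    (fun q => (E.filter (fun z => I z (ln q.1 q.2))).card) ⟨(q, p), Finset.mem_offDiag.mpr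
      ⟨hq, hp, hqp⟩⟩
  rw [Finset.mem_offDiag] at ha
  obtain ⟨ha0, ha1, ha01⟩ := ha
  change a0 ∈ E at ha0
  change a1 ∈ E at ha1
  change a0 ≠ a1 at ha01
  have hmax : ∀ x ∈ E, ∀ y ∈ E, x ≠ y → (E.filter (fun z => I z (ln x y))).card ≤
      (E.filter (fun z => I z (ln a0 a1))).card := fun x hx y hy hxy =>
    hmax' (x, y) (Finset.mem_offDiag.mpr ⟨hx, hy, hxy⟩)
  by_cases hpl : I p (ln a0 a1)
  · obtain ⟨a, haE, hap, hal⟩ : ∃ a ∈ E, a ≠ p ∧ I a (ln a0 a1) := by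
      by_cases h : a0 = p
      · exact ⟨a1, ha1, fun e => ha01 (h.trans e.symm), (h1 a0 ha0 a1 ha1 ha01).2⟩
      · exact ⟨a0, ha0, h, (h1 a0 ha0 a1 ha1 ha01).1⟩
    have el : ln p a = ln a0 a1 := h2 a0 ha0 a1 ha1 ha01 p hp a haE (Ne.symm hap) hpl hal
    obtain ⟨c, hc, hcl⟩ := hnc a0 ha0 a1 ha1 ha01
    rw [← el] at hmax hcl
    obtain ⟨φ, hφ1, hφ2⟩ := own_line h1 h2 hp haE (Ne.symm hap) hc hcl hmax
    have hac : a ≠ c := fun e => hcl (e ▸ (h1 p hp a haE (Ne.symm hap)).2)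
    have hpc : c ≠ p := fun e => hcl (e ▸ (h1 p hp a haE (Ne.symm hap)).1)
    refine ⟨a, haE, c, hc, hap, hpc, hac, ?_, φ, ?_, hφ2⟩
    · intro h
      have e1 := h2 a haE c hc hac p hp a haE (Ne.symm hap) h (h1 a haE c hc hac).1
      exact hcl (e1 ▸ (h1 a haE c hc hac).2)
    · intro z hz k1 k2 k3
      exact hφ1 z hz k1 k2 k3
  · obtain ⟨φ, hφ1, hφ2⟩ := own_line h1 h2 ha0 ha1 ha01 hp hpl hmax
    refine ⟨a0, ha0, a1, ha1, fun e => hpl (e ▸ (h1 a0 ha0 a1 ha1 ha01).1),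
      fun e => hpl (e ▸ (h1 a0 ha0 a1 ha1 ha01).2), ha01, hpl, φ, ?_, ?_⟩
    · intro z hz k1 k2 k3
      obtain ⟨j1, j2, j3, j4⟩ := hφ1 z hz k2 k3 k1
      exact ⟨j1, by rw [hsym]; exact j3, by rw [hsym]; exact j4, j2⟩
    · intro z hz k1 k2 k3 w hw k4 k5 k6 e
      exact hφ2 z hz k2 k3 k1 w hw k5 k6 k4 e

end Pool.Agent.Helper68.VL
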