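import Pool.Agent.Helper68.VL.Own
import Pool.Agent.Helper63.HM.Cone
import Pool.Agent.Helper38.Thick.Frame

/-!
# The linear space over a line

`u` is a line.  The points off `u` and one more point form a linear space: its lines are the lines
missing `u`, and the planes over `u`.
-/

set_option autoImplicit false
set_option linter.unusedSectionVars false

namespace Pool.Agent.Helper68.VL

open Pool.Agent.Helper28.BPack Pool.Agent.Helper61.Motz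

variable {L : Type} [Lattice L] [BoundedOrder L] [Finite L] [IsUpperModularLattice L]

open Classical in
/-- The line of the linear space; the element `u` is the additional point. -/
noncomputable def ln (u x y : L) : L := if rk (x ⊔ y ⊔ u) = 3 then x ⊔ y ⊔ u else x ⊔ y

theorem ln_pos {u x y : L} (h : rk (x ⊔ y ⊔ u) = 3) : ln u x y = x ⊔ y ⊔ u := if_pos h

theorem ln_neg {u x y : L} (h : ¬ rk (x ⊔ y ⊔ u) = 3) : ln u x y = x ⊔ y := if_neg h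

/-- Own lines and planes for the points off `u`. -/
theorem exists_own {A : Finset L} (hA : ∀ a ∈ A, IsAtom a) (hr : rk (A.sup id) = 4) {u : L}
    (hu : rk u = 2) :
    ∃ r1 ∈ A, ∃ r2 ∈ A, ¬ r1 ≤ u ∧ ¬ r2 ≤ u ∧ r1 ≠ r2 ∧ rk (r1 ⊔ r2 ⊔ u) = 4 ∧ ∃ φ : L → L,
      (∀ z ∈ A, ¬ z ≤ u → z ≠ r1 → z ≠ r2 →
        (φ z = z ⊔ u ∧ ¬ r1 ≤ z ⊔ u ∧ ¬ r2 ≤ z ⊔ u) ∨
        (∃ y ∈ A, ¬ y ≤ u ∧ y ≠ z ∧ φ z = z ⊔ y ∧ rk (z ⊔ y ⊔ u) = 4 ∧
          φ z ≠ r1 ⊔ r2)) ∧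
      (∀ z ∈ A, ¬ z ≤ u → z ≠ r1 → z ≠ r2 → ∀ w ∈ A, ¬ w ≤ u → w ≠ r1 → w ≠ r2 →
        φ z = φ w → z = w) := by
  classical
  set E : Finset L := insert u (A.filter (fun z => ¬ z ≤ u)) with hE
  have hEm : ∀ z, z ∈ E ↔ z = u ∨ (z ∈ A ∧ ¬ z ≤ u) := fun z => by
    rw [hE, Finset.mem_insert, Finset.mem_filter]
  have huE : u ∈ E := (hEm u).mpr (Or.inl rfl)
  -- rank of the plane through `u` and a point off it
  have hpl : ∀ z ∈ A, ¬ z ≤ u → rk (u ⊔ z) = 3 := fun z hz hzu => by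
    rw [rk_sup_atom (hA z hz) hzu, hu]
  -- two points of `E` in a plane over `u` span it together with `u`
  have hin : ∀ z ∈ E, ∀ w ∈ E, z ≠ w → ∀ P, rk P = 3 → u ≤ P → z ≤ P → w ≤ P →
      z ⊔ w ⊔ u = P := by
    intro z hz w hw hzw P hP huP hzP hwP
    have key : ∀ t ∈ A, ¬ t ≤ u → t ≤ z ⊔ w ⊔ u → z ⊔ w ⊔ u = P := by
      intro t ht htu htl
      refine eq_of_le_of_rk (sup_le (sup_le hzP hwP) huP) ?_
      rw [hP, ← hpl t ht htu]
      exact rk_mono (sup_le le_sup_right htl)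
    rcases (hEm z).mp hz with hz1 | ⟨hz1, hz2⟩
    · rcases (hEm w).mp hw with hw1 | ⟨hw1, hw2⟩
      · exact absurd (hz1.trans hw1.symm) hzw
      · exact key w hw1 hw2 (le_sup_right.trans le_sup_left)
    · exact key z hz1 hz2 (le_sup_left.trans le_sup_left)
  -- points of `E` which do not span a plane with `u`
  have hoff : ∀ z ∈ E, ∀ w ∈ E, z ≠ w → ¬ rk (z ⊔ w ⊔ u) = 3 →
      (z ∈ A ∧ ¬ z ≤ u) ∧ (w ∈ A ∧ ¬ w ≤ u) := by
    intro z hz w hw hzw h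
    rcases (hEm z).mp hz with hz1 | hz1
    · rcases (hEm w).mp hw with hw1 | hw1
      · exact absurd (hz1.trans hw1.symm) hzw
      · exfalso
        apply h
        have e : z ⊔ w ⊔ u = u ⊔ w := by rw [hz1]; exact sup_eq_left.mpr le_sup_left
        rw [e, hpl w hw1.1 hw1.2]
    · rcases (hEm w).mp hw with hw1 | hw1
      · exfalso
        apply h
        rw [hw1, sup_assoc, sup_idem, sup_comm, hpl z hz1.1 hz1.2]
      · exact ⟨hz1, hw1⟩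
  have h4 : ∀ z ∈ A, ¬ z ≤ u → ∀ w ∈ A, ¬ rk (z ⊔ w ⊔ u) = 3 → rk (z ⊔ w ⊔ u) = 4 := by
    intro z hz hzu w hw h
    have h1 : z ⊔ w ⊔ u = u ⊔ z ⊔ w := by rw [sup_comm (z ⊔ w) u, sup_assoc]
    have h2 := rk_sup_atom_le (x := u ⊔ z) (hA w hw)
    have h3 : rk (u ⊔ z) ≤ rk (u ⊔ z ⊔ w) := rk_mono le_sup_left
    rw [h1] at h ⊢
    rw [hpl z hz hzu] at h2 h3
    omega
  have h1 : ∀ x ∈ E, ∀ y ∈ E, x ≠ y → x ≤ ln u x y ∧ y ≤ ln u x y := by
    intro x _ y _ _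
    by_cases h : rk (x ⊔ y ⊔ u) = 3
    · rw [ln_pos h]
      exact ⟨le_sup_left.trans le_sup_left, le_sup_right.trans le_sup_left⟩
    · rw [ln_neg h]
      exact ⟨le_sup_left, le_sup_right⟩
  have h2 : ∀ x ∈ E, ∀ y ∈ E, x ≠ y → ∀ z ∈ E, ∀ w ∈ E, z ≠ w → z ≤ ln u x y → w ≤ ln u x y →
      ln u z w = ln u x y := by
    intro x hx y hy hxy z hz w hw hzw hzl hwl
    by_cases h : rk (x ⊔ y ⊔ u) = 3
    · rw [ln_pos h] at hzl hwl ⊢
      have e := hin z hz w hw hzw _ h le_sup_right hzl hwl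
      rw [ln_pos (by rw [e, h]), e]
    · rw [ln_neg h] at hzl hwl ⊢
      obtain ⟨⟨hx1, hx2⟩, ⟨hy1, hy2⟩⟩ := hoff x hx y hy hxy h
      have hr2 : rk (x ⊔ y) = 2 := rk_line (hA x hx1) (hA y hy1) hxy
      have hnu : ∀ t, t ≤ x ⊔ y → t ≠ u := by
        rintro t ht rfl
        have e : t = x ⊔ y := eq_of_le_of_rk ht (by rw [hr2, hu])
        exact hx2 (e ▸ le_sup_left)
      have hz1 := ((hEm z).mp hz).resolve_left (hnu z hzl)
      have hw1 := ((hEm w).mp hw).resolve_left (hnu w hwl)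
      have e := line_eq (hA z hz1.1) (hA w hw1.1) hzw hzl hwl hr2
      rw [ln_neg (by rw [e]; exact h), e]
  obtain ⟨q, hq, hqu⟩ := Pool.Agent.Helper38.Thick.exists_not_le hr (p := u) (by omega)
  obtain ⟨r1, hr1, r2, hr2, k1, k2, k3, k4, φ, hφ1, hφ2⟩ := own_frame (E := E) (ln := ln u)
    (I := fun x m => x ≤ m) h1 h2
    (fun x y => by simp only [ln, sup_comm x y]) huE
    ⟨q, (hEm q).mpr (Or.inr ⟨hq, hqu⟩), fun e => hqu e.le⟩
    (by
      intro x hx y hy hxy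
      by_cases h : rk (x ⊔ y ⊔ u) = 3
      · obtain ⟨a, ha, hau⟩ := Pool.Agent.Helper38.Thick.exists_not_le hr
          (p := x ⊔ y ⊔ u) (by omega)
        refine ⟨a, (hEm a).mpr (Or.inr ⟨ha, fun h' => hau (h'.trans le_sup_right)⟩), ?_⟩
        rw [ln_pos h]
        exact hau
      · refine ⟨u, huE, ?_⟩
        rw [ln_neg h]
        obtain ⟨⟨hx1, hx2⟩, ⟨hy1, hy2⟩⟩ := hoff x hx y hy hxy h
        intro h'
        have e : u = x ⊔ y := eq_of_le_of_rk h'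
          (by rw [rk_line (hA x hx1) (hA y hy1) hxy, hu])
        exact hx2 (e ▸ le_sup_left))
  have hr1' := ((hEm r1).mp hr1).resolve_left k1
  have hr2' := ((hEm r2).mp hr2).resolve_left k2
  have h5 : ¬ rk (r1 ⊔ r2 ⊔ u) = 3 := by
    intro h
    apply k4
    rw [ln_pos h]
    exact le_sup_right
  have hmE : ∀ z ∈ A, ¬ z ≤ u → z ∈ E := fun z hz hzu => (hEm z).mpr (Or.inr ⟨hz, hzu⟩)
  have hne : ∀ z, ¬ z ≤ u → z ≠ u := fun z hz e => hz e.le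
  refine ⟨r1, hr1'.1, r2, hr2'.1, hr1'.2, hr2'.2, k3, h4 r1 hr1'.1 hr1'.2 r2 hr2'.1 h5, φ, ?_,
    fun z hz hzu hz1 hz2 w hw hwu hw1 hw2 e => hφ2 z (hmE z hz hzu) (hne z hzu) hz1 hz2
      w (hmE w hw hwu) (hne w hwu) hw1 hw2 e⟩
  intro z hz hzu hz1 hz2
  obtain ⟨⟨y, hy, hyz, hφ⟩, j1, j2, j3⟩ := hφ1 z (hmE z hz hzu) (hne z hzu) hz1 hz2
  rw [ln_neg h5] at j3
  have hP : ∀ r ∈ A, ¬ r ≤ u → ln u u r = u ⊔ r := by
    intro r hr hru
    have e : u ⊔ r ⊔ u = u ⊔ r := sup_eq_left.mpr le_sup_left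
    rw [ln_pos (by rw [e, hpl r hr hru]), e]
  by_cases h : rk (z ⊔ y ⊔ u) = 3
  · left
    rw [ln_pos h] at hφ
    have e1 : u ⊔ z = z ⊔ y ⊔ u := eq_of_le_of_rk
      (sup_le le_sup_right (le_sup_left.trans le_sup_left)) (by rw [h, hpl z hz hzu])
    have e2 : φ z = z ⊔ u := by rw [hφ, ← e1, sup_comm]
    have hn : ∀ r ∈ A, ¬ r ≤ u → φ z ≠ ln u u r → ¬ r ≤ z ⊔ u := by
      intro r hr hru hn hle
      apply hn
      rw [hP r hr hru, e2]
      refine (eq_of_le_of_rk (sup_le le_sup_right hle) ?_).symm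
      rw [sup_comm z u, hpl z hz hzu, hpl r hr hru]
    exact ⟨e2, hn r1 hr1'.1 hr1'.2 j1, hn r2 hr2'.1 hr2'.2 j2⟩
  · right
    rw [ln_neg h] at hφ
    have hy' := (hoff z (hmE z hz hzu) y hy hyz.symm h).2
    exact ⟨y, hy'.1, hy'.2, hyz, hφ, h4 z hz hzu y hy'.1 h, j3⟩

end Pool.Agent.Helper68.VL
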